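import Pool.Agent.H946.Z.Main
import Pool.Agent.H946.T4.Fin
set_option autoImplicit false

/-!
# MP_d9449f_ag : the odd q-zeta conjecture for Donaldson-Thomas point series is false

`X = ℂ³`, `G = {t₁t₂t₃ = 1}` (a two-dimensional torus whose fixed locus on `ℂ³` is the origin),
`L = 𝒪`, `f = ch₂ · ch₄`. By virtual localization the integral over `Hilb(ℂ³,n)` is the sum over
the fixed points, i.e. over the plane partitions `π` with `n` boxes, of `f(π)/e(V_π)`, where `V_π`
is the vertex character. The normalized series `⟨ch₂ ch₄⟩'` is not a finite sum `∑ a_j F_j` with
`a_j ∈ ℚ(h₁,h₂)` and `F_j ∈ oqZ`.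

All definitions are in `Pool.Agent.H946.Z.DT`.

Idea of the proof. On `G` every fixed point contributes `1/e = (-1)^n`, so the series is the
expectation of `ch₂ ch₄` over plane partitions with weight `q^{|π|}`. Averaging over the symmetric
group `S_3` reduces the statement to one rational combination `F0` of covariances of one-body
statistics of diagonal slices, which are computed exactly by determinants (Schur measure), giving a
closed form of `F0` as a double series in `1/(1-q^k)`. For `q = exp(-2πi/(τ+N))`, `N → ∞`, the
closed form is `O(N^14)`, whereas polynomials in the derivatives of the odd-weight Eisenstein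
series whose growth is `O(N^14)` for all `τ` have weight at most `14`. A finite computation (the
first 73 coefficients modulo 127) shows that `F0` is not in the span of the 72 monomials of weight
at most `14`.
-/

namespace Pool.Agent.Results.MP_d9449f_ag.OddZetaDisproof

open Pool.Agent.H946.Z

/-- `⟨ch₂ ch₄⟩'` for `ℂ³` with the torus `t₁t₂t₃ = 1` is not in `H_G^*(pt)_loc ⊗ oqZ`. -/
theorem result : dtBracket (fun π => ch 2 π * ch 4 π) ∉ KoqZ :=
  main_of_T4 Pool.Agent.H946.T4.finite_check

end Pool.Agent.Results.MP_d9449f_ag.OddZetaDisproof
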